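import Pool.Agent.H516.PCF.Asm

/-!
# Preimage towers of postcritically finite maps are wildly ramified (MP_392fd3_nt)

Full (negative) answer to Q1: for every number field `K`, every postcritically finite rational function
`f = P / Q` over `K` of degree `d ≥ 2` and every non-exceptional `α` in the projective line over `K`, some prime is wildly
ramified in some `K_n / K`, where `K_n = K(f^{-n}(α))`.

Definitions used (files `Pool.Agent.H516.PCF.Defs`, `Pool.Agent.H516.PCF.StmG`):
* `IsRat d P Q` : `P, Q` coprime, `max (deg P) (deg Q) = d`, `2 ≤ d`;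
* `rmap d P Q : OnePoint k → OnePoint k` : the self-map of the projective line `k ∪ {∞}` defined by `P / Q`;
* `wr P Q = P' Q - P Q'`; `IsCrit d P Q c` : `c` is a critical point (`wr P Q` vanishes at `c`; for `c = ∞`: its coefficient
  in degree `2 d - 2` vanishes);
* `tower K d P Q α n` : the subfield of the algebraic closure generated over `K` by the coordinates of the points of `f^{-n}(α)`.
-/

namespace Pool.Agent.Results.MP_392fd3_nt.WildPCFTowers

open Polynomial NumberField Pool.Agent.H516.PCF

/-- the map of the projective line over the algebraic closure of `K` defined by `P / Q` -/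
noncomputable def fbar (K : Type) [Field K] (d : ℕ) (P Q : K[X]) :
    OnePoint (AlgebraicClosure K) → OnePoint (AlgebraicClosure K) :=
  rmap d (P.map (algebraMap K (AlgebraicClosure K))) (Q.map (algebraMap K (AlgebraicClosure K)))

/-- `P / Q` is postcritically finite: every critical point has a finite forward orbit -/
def IsPCF (K : Type) [Field K] (d : ℕ) (P Q : K[X]) : Prop :=
  ∀ c : OnePoint (AlgebraicClosure K),
    IsCrit d (P.map (algebraMap K (AlgebraicClosure K))) (Q.map (algebraMap K (AlgebraicClosure K))) c →
    (Set.range fun n : ℕ => (fbar K d P Q)^[n] c).Finite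

/-- `α` is non-exceptional: its backward orbit is infinite -/
def NonExceptional (K : Type) [Field K] (d : ℕ) (P Q : K[X]) (α : OnePoint K) : Prop :=
  {z | ∃ n : ℕ, (fbar K d P Q)^[n] z = OnePoint.map (algebraMap K (AlgebraicClosure K)) α}.Infinite

/-- some prime `𝔓` of `L` (containing the prime number `p`) is wildly ramified over `K`: its ramification index
(the largest `e` with `(𝔓 ∩ 𝓞 K) 𝓞 L ⊆ 𝔓 ^ e`) is divisible by `p` -/
def WildlyRamified (K : Type) [Field K] (L : IntermediateField K (AlgebraicClosure K)) : Prop :=
  ∃ 𝔓 : Ideal (𝓞 L), 𝔓.IsPrime ∧ ∃ p : ℕ, p.Prime ∧ (p : 𝓞 L) ∈ 𝔓 ∧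
    p ∣ Ideal.ramificationIdx' (𝔓.under (𝓞 K)) 𝔓

/-- For every postcritically finite `f = P / Q` of degree `d ≥ 2` over a number field `K` and every non-exceptional
`α` there is `n ≥ 1` such that some prime of `K_n = K(f^{-n}(α))` is wildly ramified over `K`. -/
theorem result (K : Type) [Field K] [NumberField K] (d : ℕ) (P Q : K[X]) (hf : IsRat d P Q)
    (hpcf : IsPCF K d P Q) (α : OnePoint K) (hα : NonExceptional K d P Q α) :
    ∃ n, 1 ≤ n ∧ WildlyRamified K (tower K d P Q α n) :=
  fullP K d P Q hf α hpcf hα

end Pool.Agent.Results.MP_392fd3_nt.WildPCFTowers
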